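import Pool.Agent.H85.ERG.Targets

/-!
# Step B, row DI: every state has a long mesh orbit or belongs to one of the sets `Fn`, `Nu`
-/

namespace Pool.Agent.H75.ERG

open MeasureTheory Set Metric Filter Topology Pool.Agent.H85.ERG Pool.Agent.H93.EN
open Pool.Agent.H93.BL hiding T_B1 T_B2 T_B3 T_SB T_SC

theorem di (h3 : Pool.Agent.H85.ERG.T_RV) : Pool.Agent.H85.ERG.T_DI := by
  intro ι P κ hL a h R ha hh hh2 haR N
  obtain ⟨-, -, h33, -⟩ := h3 ι P κ a hL ha
  induction N with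
  | zero =>
    intro x w hx hw
    by_cases hr : rh P x < R
    · exact Or.inl ⟨0, le_refl _, Or.inl ⟨hx, hw, hr⟩⟩
    · refine Or.inr ⟨fun _ => x, fun _ => w, rfl, rfl, fun n _ => ⟨hx, hw, not_lt.1 hr⟩, ?_⟩
      intro n hn
      exact absurd hn (Nat.not_lt_zero n)
  | succ N ih =>
    intro x w hx hw
    by_cases hr : rh P x < R
    · exact Or.inl ⟨0, Nat.zero_le _, Or.inl ⟨hx, hw, hr⟩⟩
    have hr' : R ≤ rh P x := not_lt.1 hr
    by_cases hm : ∃ x' w', Mv P κ a x w ((h : ℂ) * w) x' w'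
    · obtain ⟨x₁, w₁, hm⟩ := hm
      have hx₁ : x₁ ∈ P.Ω := hm.2.1
      have hw₁ : ‖w₁‖ = 1 := by
        rw [(h33 x w _ x₁ w₁ hm).1, hw]
      rcases ih x₁ w₁ hx₁ hw₁ with ⟨n, hn, hF | hF⟩ | ⟨y, v, hy0, hv0, hy, hv⟩
      · exact Or.inl ⟨n + 1, by omega, Or.inl ⟨hr', hw, x₁, w₁, hm, hF⟩⟩
      · exact Or.inl ⟨n + 1, by omega, Or.inr ⟨hr', hw, x₁, w₁, hm, hF⟩⟩
      · refine Or.inr ⟨fun n => Nat.casesOn n x y, fun n => Nat.casesOn n w v, rfl, rfl, ?_, ?_⟩
        · intro n hn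
          cases n with
          | zero => exact ⟨hx, hw, hr'⟩
          | succ n => exact hy n (by omega)
        · intro n hn
          cases n with
          | zero =>
            show Mv P κ a x w ((h : ℂ) * w) (y 0) (v 0)
            rw [hy0, hv0]
            exact hm
          | succ n => exact hv n (by omega)
    · exact Or.inl ⟨0, Nat.zero_le _, Or.inr ⟨hx, hw, hr', hm⟩⟩

end Pool.Agent.H75.ERG
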