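import Pool.Agent.H93.EG.Targets

/-!
# Invariant functions of polygonal billiards: definitions for STEP C
-/

namespace Pool.Agent.H75.ERG

open MeasureTheory Set Metric Pool.Agent.H93.BL
open Pool.Agent.H93.EN (av md rf chi gchi Bd Ml Nl Inv Agr sg VV Chart LS Phi)
open Pool.Agent.H93.EG (InvG Sm gN hN nrm)

section table

variable {ι : Type} (P : Polygon ι)

/-- clamp -/
noncomputable def th (k : ℕ) (v : ℝ) : ℝ := max 0 (min 1 (v / 2 ^ k - 1))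

/-- the cutoff profile -/
noncomputable def psi (K : ℕ) (v : ℝ) : ℝ := (∑ k ∈ Finset.Icc 1 K, th k v) / K

open Classical in
/-- local Lipschitz constant of the cutoff profile -/
noncomputable def DK (K : ℕ) (v : ℝ) : ℝ :=
  if 1 ≤ v ∧ v ≤ 2 ^ (K + 2) then 4 / (K * v) else 0

open Classical in
/-- Cost functions with parameters `a`, `L` and constant `Λ`: `m (y, w)` is small if and only if
the orbit of `(y, w)` passes close to a vertex soon. -/
structure CostF (κ Λ a L : ℝ) (m : ℂ → ℂ → ℝ) : Prop where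
  meas : Measurable (Function.uncurry m)
  nn : ∀ y w, 0 ≤ m y w
  le : ∀ y w, m y w ≤ infDist y (VV P) / a
  lip : ∀ x ∈ P.Ω, a ≤ infDist x (VV P) → ∀ (R : ℝ) (τ : Option ι), κ * a / 4 ≤ R →
    Chart P x R τ → ∀ (y w e : ℂ) (s : ℝ), ‖w‖ = 1 → y ∈ ball x (κ * a / 64) →
      y + (s : ℂ) * w + e ∈ ball x (κ * a / 64) → 128 * |s| < κ * a → 128 * ‖e‖ < κ * a →
      (∀ j, τ = some j → sg P j y ≠ 0 ∧ sg P j (y + (s : ℂ) * w + e) ≠ 0) →
      |Phi P m τ (y + (s : ℂ) * w + e) w - Phi P m τ y w| ≤ |s| / L + Λ * ‖e‖ / a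
  int : ∀ K : ℕ, 1 ≤ K → ∫ x in P.Ω, av (fun w => DK K (m x w) ^ 2) ≤ Λ * a * L / K
  sml : ∀ K : ℕ, ∫ x in P.Ω, av (fun w => if m x w < 2 ^ (K + 2) then 1 else 0) ≤
    Λ * 4 ^ K * a * L

/-- product of `F` with the cutoff -/
noncomputable def cutG (K : ℕ) (F m : ℂ → ℂ → ℝ) (y w : ℂ) : ℝ := F y w * psi K (m y w)

open Classical in
/-- the system of local extensions of a function which vanishes near the vertices -/
noncomputable def XG (κ a : ℝ) (G : ℂ → ℂ → ℝ) (x : ℂ) : ℂ → ℂ → ℝ :=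
  if h : x ∈ P.Ω ∧ a < infDist x (VV P) ∧ ∃ τ, Chart P x (κ * infDist x (VV P)) τ then
    Phi P G h.2.2.choose
  else fun _ _ => 0

/-- the two cases of the definition of `XG` -/
theorem XG_cases (κ a : ℝ) (hL : LS P κ) (G : ℂ → ℂ → ℝ) (x : ℂ) (hx : x ∈ P.Ω) :
    (infDist x (VV P) ≤ a ∧ XG P κ a G x = fun _ _ => 0) ∨
    (a < infDist x (VV P) ∧ ∃ τ, Chart P x (κ * infDist x (VV P)) τ ∧
      XG P κ a G x = Phi P G τ) := by
  by_cases h : a < infDist x (VV P)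
  · right
    have h' : x ∈ P.Ω ∧ a < infDist x (VV P) ∧ ∃ τ, Chart P x (κ * infDist x (VV P)) τ :=
      ⟨hx, h, hL.2.2.1 x hx⟩
    refine ⟨h, h'.2.2.choose, h'.2.2.choose_spec, ?_⟩
    unfold XG
    rw [dif_pos h']
  · left
    refine ⟨not_lt.1 h, ?_⟩
    unfold XG
    rw [dif_neg]
    rintro ⟨-, h1, -⟩
    exact h h1

/-- `XG` vanishes near the vertices -/
theorem XG_zero (κ a : ℝ) (G : ℂ → ℂ → ℝ) (x : ℂ) (hx : infDist x (VV P) ≤ a) :
    XG P κ a G x = fun _ _ => 0 := by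
  unfold XG
  rw [dif_neg]
  rintro ⟨-, h1, -⟩
  exact absurd h1 (not_lt.2 hx)

/-- `XG` vanishes outside of the table -/
theorem XG_out (κ a : ℝ) (G : ℂ → ℂ → ℝ) (x : ℂ) (hx : x ∉ P.Ω) :
    XG P κ a G x = fun _ _ => 0 := by
  unfold XG
  rw [dif_neg]
  rintro ⟨h1, -, -⟩
  exact hx h1

open Classical in
/-- mean oscillation of `F` at scale `δ` -/
noncomputable def om (F : ℂ → ℂ → ℝ) (δ : ℝ) (x w : ℂ) : ℝ :=
  if infDist x (P.Ωᶜ) ≤ δ then 4 else (δ ^ 2)⁻¹ * ∫ y in ball x δ, |F y w - F x w|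

/-- hypotheses on a function which vanishes near the vertices -/
structure Van (a : ℝ) (G : ℂ → ℂ → ℝ) : Prop where
  meas : Measurable (Function.uncurry G)
  bd : ∀ y w, 0 ≤ G y w ∧ G y w ≤ 1
  out : ∀ y w, y ∉ P.Ω → G y w = 0
  van : ∀ y w, infDist y (VV P) ≤ 2 * a → G y w = 0

/-- admissible data -/
structure Adm (κ Λ a L δ : ℝ) (K : ℕ) (F m : ℂ → ℂ → ℝ) : Prop where
  ls : LS P κ
  inv : InvG P F
  cost : CostF P κ Λ a L m
  a0 : 0 < a
  L0 : 0 < L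
  Λ0 : 0 < Λ
  δ0 : 0 < δ
  K1 : 1 ≤ K
  h1 : 512 * δ ≤ κ * a
  h2 : 8 * Λ * δ ≤ a

end table

end Pool.Agent.H75.ERG
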