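import Pool.Agent.H75.ERG.STC
import Pool.Agent.H21.EN.CHT
import Pool.Agent.H55.EN.AG
import Pool.Agent.H37.EN.CH
import Pool.Agent.H34.EN.U0
import Pool.Agent.H68.EN.U4
import Pool.Agent.H50.EN.LS1
import Pool.Agent.H15.EN.LSS
import Pool.Agent.H27.EN.LS
import Pool.Agent.H38.EG.PSI
import Pool.Agent.H11.EG.GLN
import Pool.Agent.H32.EG.HLN
import Pool.Agent.H64.EG.LIG
import Pool.Agent.H67.EG.BDG
import Pool.Agent.H34.EG.XIN
import Pool.Agent.H68.EG.XSD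
import Pool.Agent.H37.EG.XMS
import Pool.Agent.H37.EG.XSM2
import Pool.Agent.H39.EG.OMM
import Pool.Agent.H72.EG.OMC
import Pool.Agent.H98.EG.OML
import Pool.Agent.H91.EG.NB
import Pool.Agent.H45.EG.GB
import Pool.Agent.H44.EG.HB
import Pool.Agent.H60.EG.AF
import Pool.Agent.H64.EG.IE

/-!
# Invariant functions of polygonal billiards: STEP C, closed facts
-/

namespace Pool.Agent.H75.ERG.Final

open Pool.Agent.H75.ERG

theorem pCHT : Pool.Agent.H93.EN.T_CHT := Pool.Agent.H21.EN.cht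
theorem pAG : Pool.Agent.H93.EN.T_AG := Pool.Agent.H93.EN.ag pCHT
theorem pCH : Pool.Agent.H93.EN.T_CH := Pool.Agent.H37.EN.ch
theorem pU0 : Pool.Agent.H93.EN.T_U0 := Pool.Agent.H34.EN.u0 pCH
theorem pU4 : Pool.Agent.H93.EN.T_U4 := Pool.Agent.H68.EN.u4 pCH
theorem pLS1 : Pool.Agent.H93.EN.T_LS1 := Pool.Agent.H50.EN.ls1
theorem pLSS : Pool.Agent.H93.EN.T_LSS := Pool.Agent.H15.EN.lss pLS1
theorem pLS : Pool.Agent.H93.EN.T_LS := Pool.Agent.H27.EN.ls pLS1 pLSS pCHT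
theorem pPSI : T_PSI := Pool.Agent.H38.EG.psi_ok
theorem pGLN : T_GLN := Pool.Agent.H11.EG.gln pCH
theorem pHLN : T_HLN := Pool.Agent.H32.EG.hln pCH
theorem pLIG : T_LIG := Pool.Agent.H64.EG.lig pCHT
theorem pBDG : T_BDG := Pool.Agent.H67.EG.bdg
theorem pXIN : T_XIN := Pool.Agent.H34.EG.xin pCHT pAG pBDG
theorem pXSD : T_XSD := Pool.Agent.H68.EG.xsd pCHT pAG pBDG
theorem pXMS : T_XMS := Pool.Agent.H37.EG.xms pXIN pU0 pU4
theorem pXSM : T_XSM := Pool.Agent.H37.EG.xsm pXIN pXSD pXMS pU0 pU4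
theorem pOMM : T_OMM := Pool.Agent.H39.EG.omm
theorem pOMC : T_OMC := Pool.Agent.H72.EG.omc pCHT
theorem pOML : T_OML := Pool.Agent.H98.EG.oml pOMM
theorem pNB : T_NB := Pool.Agent.H91.EG.nb pCHT pLIG
theorem pGB : T_GB := Pool.Agent.H45.EG.gb pGLN pNB pPSI pBDG
theorem pHB : T_HB := Pool.Agent.H44.EG.hb pHLN pNB pPSI pBDG pOMC pOMM
theorem pAF : T_AF := Pool.Agent.H60.EG.af pHLN pNB pPSI pBDG pOMC pOMM pU0
theorem pIE : T_IE := Pool.Agent.H64.EG.ie pGB pHB pAF pOMM pPSI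

/-- STEP C from STEP B -/
theorem pSTC (hB : T_STB) : Pool.Agent.H93.EG.T_STC :=
  stc pLS hB pPSI pXSM pOML pOMM pIE

end Pool.Agent.H75.ERG.Final
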