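import Pool.Agent.H85.ERG.Targets

/-!
# Step B, row MS: measurability of the cost function
-/

namespace Pool.Agent.H75.ERG

open MeasureTheory Set Metric Filter Topology Pool.Agent.H85.ERG Pool.Agent.H93.EN
open Pool.Agent.H93.BL hiding T_B1 T_B2 T_B3 T_SB T_SC

theorem ms (h1 : Pool.Agent.H85.ERG.T_MO) (_h3 : Pool.Agent.H85.ERG.T_MM0) :
    Pool.Agent.H85.ERG.T_MS := by
  intro ι _ P κ hL a L ha hL0
  have hS : MeasurableSet {p : ℂ × ℂ | p.1 ∈ P.Ω ∧ ‖p.2‖ = 1} := by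
    refine MeasurableSet.inter ?_ ?_
    · exact measurable_fst P.isOpen.measurableSet
    · exact (isClosed_eq (continuous_norm.comp continuous_snd) continuous_const).measurableSet
  refine measurable_of_Iio fun lam => ?_
  have hO : IsOpen {p : ℂ × ℂ | p.1 ∈ P.Ω ∧ mm P κ a L p.1 p.2 < lam} := by
    rw [Metric.isOpen_iff]
    rintro ⟨x, w⟩ ⟨hx, hm⟩
    obtain ⟨ε, hε, h⟩ := h1 ι P κ hL a L ha hL0 x hx w lam hm
    refine ⟨ε, hε, ?_⟩
    rintro ⟨x', w'⟩ hp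
    rw [mem_ball, Prod.dist_eq, max_lt_iff] at hp
    exact h x' w' hp.1 hp.2
  have h2 : Function.uncurry (mc P κ a L) ⁻¹' Iio lam =
      ({p : ℂ × ℂ | p.1 ∈ P.Ω ∧ ‖p.2‖ = 1} ∩ {p : ℂ × ℂ | p.1 ∈ P.Ω ∧ mm P κ a L p.1 p.2 < lam}) ∪
      ({p : ℂ × ℂ | p.1 ∈ P.Ω ∧ ‖p.2‖ = 1}ᶜ ∩ {p : ℂ × ℂ | 0 < lam}) := by
    ext ⟨x, w⟩
    simp only [mem_preimage, Function.uncurry_apply_pair, mem_Iio, mem_union, mem_inter_iff,
      Set.mem_ofPred_eq, mem_compl_iff, mc]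
    by_cases hc : x ∈ P.Ω ∧ ‖w‖ = 1
    · rw [if_pos hc]
      constructor
      · intro h
        exact Or.inl ⟨hc, hc.1, h⟩
      · rintro (h | h)
        · exact h.2.2
        · exact absurd hc h.1
    · rw [if_neg hc]
      constructor
      · intro h
        exact Or.inr ⟨hc, h⟩
      · rintro (h | h)
        · exact absurd h.1 hc
        · exact h.2
  rw [h2]
  exact (hS.inter hO.measurableSet).union (hS.compl.inter (MeasurableSet.const _))

end Pool.Agent.H75.ERG
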