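import Pool.Agent.H75.ERG.Final
import Pool.Agent.H85.ERG.Final
import Pool.Agent.H40.EGD.All
import Pool.Agent.H93.EG.Asm
import Pool.Agent.H75.EN.U1
import Pool.Agent.H15.EN.B1
import Pool.Agent.H77.EN.B2
import Pool.Agent.H77.EN.B3
import Pool.Agent.H68.EN.U5
import Pool.Agent.H94.EN.GR0
import Pool.Agent.H94.EN.GRH0
import Pool.Agent.H60.EN.GRH
import Pool.Agent.H60.EN.PU
import Pool.Agent.H1.EN.SD0
import Pool.Agent.H15.EN.SEQ
import Pool.Agent.H50.EG.AB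
import Pool.Agent.H67.EG.AG2
import Pool.Agent.H27.EG.AI
import Pool.Agent.H36.EG.AJ
import Pool.Agent.H81.EG.AP
import Pool.Agent.H33.EG.AQ
import Pool.Agent.H98.EG.AR
import Pool.Agent.H54.EG.AS
import Pool.Agent.H41.EG.A_STA
import Pool.Agent.H27.EG.LIM
import Pool.Agent.H41.EG.L_LM1
import Pool.Agent.H5.EG.L_LM2

/-!
# Invariant functions of polygonal billiards: the main theorem, closed
-/

namespace Pool.Agent.H75.ERG.Main

open Pool.Agent.H93.EG Pool.Agent.H75.ERG.Final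

theorem pB1 : Pool.Agent.H93.EN.T_B1 := Pool.Agent.H15.EN.b1
theorem pB2 : Pool.Agent.H93.EN.T_B2 := Pool.Agent.H77.EN.b2
theorem pB3 : Pool.Agent.H93.EN.T_B3 := Pool.Agent.H77.EN.b3
theorem pU1 : Pool.Agent.H93.EN.T_U1 := Pool.Agent.H75.EN.u1 pCH pU0 pB2
theorem pU5 : Pool.Agent.H93.EN.T_U5 := Pool.Agent.H68.EN.u5 pCH pB3 pU1
theorem pGR0 : Pool.Agent.H93.EN.T_GR0 := Pool.Agent.H94.EN.gr0
theorem pGRH0 : Pool.Agent.H93.EN.T_GRH0 := Pool.Agent.H94.EN.grh0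
theorem pGRH : Pool.Agent.H93.EN.T_GRH := Pool.Agent.H93.EN.grh pGRH0
theorem pPU : Pool.Agent.H93.EN.T_PU := Pool.Agent.H93.EN.pu
theorem pSD0 : Pool.Agent.H93.EN.T_SD0 := Pool.Agent.H1.EN.sd0
theorem pSEQ : Pool.Agent.H93.EN.T_SEQ := Pool.Agent.H15.EN.seq
theorem pAB : T_AB := Pool.Agent.H50.EG.ab pB2
theorem pAR : T_AR := Pool.Agent.H98.EG.ar pU1
theorem pAI : T_AI := Pool.Agent.H27.EG.ai pU1 pGR0
theorem pAS : T_AS := Pool.Agent.H54.EG.asT pSD0 pGRH pU1 pU5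
theorem pAG2 : T_AG2 := Pool.Agent.H67.EG.ag2 pAI pAS pPU pAB
theorem pAJ : T_AJ := Pool.Agent.H36.EG.aj pAG2
theorem pAP : T_AP := Pool.Agent.H81.EG.ap pB2
theorem pAQ : T_AQ := Pool.Agent.H33.EG.aq pB1 pAB
theorem pSTA : T_STA := Pool.Agent.H41.EG.sta pAJ pAP pAQ pSEQ pAB
theorem pLM1 : T_LM1 := Pool.Agent.H41.EG.lm1
theorem pLM2 : T_LM2 := Pool.Agent.H5.EG.lm2
theorem pLIM : T_LIM := Pool.Agent.H27.EG.limT pLM1 pLM2
theorem pSTC' : T_STC := pSTC Pool.Agent.H85.ERG.pSTB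

/-- all modes of an invariant function are constant -/
theorem pMAIN : T_MAIN := Pool.Agent.H93.EG.main pB2 pSTA pSTC' pLIM pAR pAB

/-- invariant sets depend only on the direction -/
theorem pRIG : Pool.Agent.H40.EGD.T_RIG := Pool.Agent.H40.EGD.All.pRIG pMAIN

/-- Q1 -/
theorem pDET : Pool.Agent.H40.EGD.T_DET := Pool.Agent.H40.EGD.All.pDET pMAIN

/-- ergodicity -/
theorem pERG : Pool.Agent.H40.EGD.T_ERG := Pool.Agent.H40.EGD.All.pERG pMAIN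

end Pool.Agent.H75.ERG.Main
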