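import Pool.Agent.H75.ERG.Targets

/-!
# Invariant functions of polygonal billiards: assembly of STEP C
-/

namespace Pool.Agent.H75.ERG

open MeasureTheory Set Metric Filter Topology Pool.Agent.H93.BL
open Pool.Agent.H93.EN (av md rf chi gchi Bd Ml Nl Inv Agr sg VV Chart LS Phi)
open Pool.Agent.H93.EG (InvG Sm gN hN nrm)

/-- the product of `F` with the cutoff vanishes near the vertices -/
theorem van_cutG (hPSI : T_PSI) {ι : Type} {P : Polygon ι} {κ Λ a L δ : ℝ} {K : ℕ}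
    {F m : ℂ → ℂ → ℝ} (h : Adm P κ Λ a L δ K F m) : Van P a (cutG K F m) := by
  obtain ⟨hc, hb, hz, -, -, -, -⟩ := hPSI K h.K1
  refine ⟨?_, ?_, ?_, ?_⟩
  · have h1 : Measurable fun z : ℂ × ℂ => psi K (Function.uncurry m z) :=
      hc.measurable.comp h.cost.meas
    exact h.inv.meas.mul h1
  · intro y w
    have h1 := h.inv.bd y w
    have h2 := hb (m y w)
    exact ⟨mul_nonneg h1.1 h2.1, mul_le_one₀ h1.2 h2.1 h2.2⟩
  · intro y w hy
    unfold cutG
    rw [h.inv.out y w hy, zero_mul]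
  · intro y w hy
    unfold cutG
    have h1 : m y w ≤ 2 := by
      refine (h.cost.le y w).trans ?_
      rw [div_le_iff₀ h.a0]
      exact hy
    rw [hz _ h1, mul_zero]

theorem stc (hLS : Pool.Agent.H93.EN.T_LS) (hSTB : T_STB) (hPSI : T_PSI) (hXSM : T_XSM)
    (hOML : T_OML) (hOMM : T_OMM) (hIE : T_IE) : Pool.Agent.H93.EG.T_STC := by
  intro ι _ P F hF ε hε
  obtain ⟨κ, hκ⟩ := hLS ι P
  obtain ⟨Λ, hΛ, hB⟩ := hSTB ι P κ hκ
  obtain ⟨C, hC, hI⟩ := hIE
  have hκ0 : 0 < κ := hκ.1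
  -- the number of scales
  obtain ⟨K, hK⟩ := exists_nat_gt (2 * C * Λ ^ 4 / ε ^ 2 + 1)
  have hK1 : (1 : ℝ) < K := by
    have : 0 ≤ 2 * C * Λ ^ 4 / ε ^ 2 := by positivity
    linarith
  have hK1' : 1 ≤ K := by
    have : (1 : ℝ) ≤ (K : ℝ) := hK1.le
    exact_mod_cast this
  have hK0 : (0 : ℝ) < K := by linarith
  have hKε : C * Λ ^ 4 / K ^ 2 ≤ ε ^ 2 / 2 := by
    have h1 : 2 * C * Λ ^ 4 / ε ^ 2 < K := by linarith
    rw [div_lt_iff₀ (by positivity)] at h1
    have h2 : (K : ℝ) ≤ K ^ 2 := by nlinarith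
    rw [div_le_iff₀ (by positivity)]
    have h3 : (K : ℝ) * ε ^ 2 ≤ K ^ 2 * ε ^ 2 := mul_le_mul_of_nonneg_right h2 (by positivity)
    linarith
  -- the measure of the cut off part
  set η : ℝ := ε / (2 * Λ) with hη
  have hη0 : 0 < η := by positivity
  have hηΛ : Λ * η = ε / 2 := by
    rw [hη]
    field_simp
  -- the scale
  set c : ℝ := min (κ / 512) (1 / (8 * Λ)) with hc
  have hc0 : 0 < c := by
    rw [hc]
    positivity
  have hc1 : c ≤ κ / 512 := min_le_left _ _
  have hc2 : c ≤ 1 / (8 * Λ) := min_le_right _ _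
  set q : ℝ := (4 : ℝ) ^ K with hq
  have hq0 : 0 < q := by positivity
  have hq1 : 1 ≤ q := one_le_pow₀ (by norm_num)
  set ω : ℝ := min (ε / (2 * C)) (ε ^ 2 * c ^ 2 * K * η / (2 * C * Λ * q)) with hω
  have hω0 : 0 < ω := by
    rw [hω]
    positivity
  have hω1 : C * ω ≤ ε / 2 := by
    have : ω ≤ ε / (2 * C) := min_le_left _ _
    calc C * ω ≤ C * (ε / (2 * C)) := mul_le_mul_of_nonneg_left this hC.le
      _ = ε / 2 := by field_simp
  have hω2 : C * Λ * q * ω / (c ^ 2 * K * η) ≤ ε ^ 2 / 2 := by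
    have : ω ≤ ε ^ 2 * c ^ 2 * K * η / (2 * C * Λ * q) := min_le_right _ _
    rw [div_le_iff₀ (by positivity)]
    calc C * Λ * q * ω ≤ C * Λ * q * (ε ^ 2 * c ^ 2 * K * η / (2 * C * Λ * q)) :=
          mul_le_mul_of_nonneg_left this (by positivity)
      _ = ε ^ 2 / 2 * (c ^ 2 * K * η) := by field_simp
  obtain ⟨δ₀, hδ₀, hom⟩ := hOML ι P F hF ω hω0
  set a : ℝ := min (min 1 (δ₀ / (2 * c))) (min 1 (η / q)) with ha
  have ha0 : 0 < a := by
    rw [ha]
    positivity
  have ha1 : a ≤ 1 := (min_le_left _ _).trans (min_le_left _ _)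
  have ha2 : a ≤ δ₀ / (2 * c) := (min_le_left _ _).trans (min_le_right _ _)
  have ha3 : a ≤ η / q := (min_le_right _ _).trans (min_le_right _ _)
  set L : ℝ := η / (q * a) with hL
  have hL0 : 0 < L := by positivity
  have haL : a ≤ L := by
    rw [hL, le_div_iff₀ (by positivity)]
    rw [le_div_iff₀ hq0] at ha3
    nlinarith
  have haLq : q * a * L = η := by
    rw [hL]
    field_simp
  obtain ⟨m, hm⟩ := hB a L ha0 ha1 haL
  set δ : ℝ := c * a with hδ
  have hδ0 : 0 < δ := by positivity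
  have hδ1 : δ < δ₀ := by
    have h1 : c * a ≤ c * (δ₀ / (2 * c)) := mul_le_mul_of_nonneg_left ha2 hc0.le
    have h2 : c * (δ₀ / (2 * c)) = δ₀ / 2 := by field_simp
    linarith
  have hA : Adm P κ Λ a L δ K F m := by
    refine ⟨hκ, hF, hm, ha0, hL0, hΛ, hδ0, hK1', ?_, ?_⟩
    · have : c * a ≤ κ / 512 * a := mul_le_mul_of_nonneg_right hc1 ha0.le
      linarith
    · have : c * a ≤ 1 / (8 * Λ) * a := mul_le_mul_of_nonneg_right hc2 ha0.le
      calc 8 * Λ * (c * a) ≤ 8 * Λ * (1 / (8 * Λ) * a) :=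
            mul_le_mul_of_nonneg_left this (by positivity)
        _ = a := by field_simp
  have hV := van_cutG hPSI hA
  obtain ⟨h1, h2, h3⟩ := hI ι P κ Λ a L δ K F m hA
  have hO := hom δ ⟨hδ0, hδ1⟩
  have hO0 : 0 ≤ ∫ x in P.Ω, av (om P F δ x) := by
    refine integral_nonneg fun x => ?_
    unfold av
    refine mul_nonneg (by positivity) ?_
    refine intervalIntegral.integral_nonneg (by positivity) fun θ _ => ?_
    exact ((hOMM ι P F hF δ hδ0).2 x _).1
  set O : ℝ := ∫ x in P.Ω, av (om P F δ x) with hOdef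
  refine ⟨δ, hδ0, _, _, hXSM ι P κ hκ a δ ha0 hδ0 (by linarith [hA.h1]) _ hV, ?_, ?_⟩
  · have hn0 : 0 ≤ nrm P.Ω (gN fun x => Nl (XG P κ a (cutG K F m) x) δ x) := by
      unfold nrm
      refine integral_nonneg fun x => ?_
      unfold av
      refine mul_nonneg (by positivity) ?_
      exact intervalIntegral.integral_nonneg (by positivity) fun θ _ => sq_nonneg _
    have hn1 : 0 ≤ nrm P.Ω (hN fun x => Nl (XG P κ a (cutG K F m) x) δ x) := by
      unfold nrm
      refine integral_nonneg fun x => ?_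
      unfold av
      refine mul_nonneg (by positivity) ?_
      exact intervalIntegral.integral_nonneg (by positivity) fun θ _ => sq_nonneg _
    calc nrm P.Ω (gN fun x => Nl (XG P κ a (cutG K F m) x) δ x) *
        nrm P.Ω (hN fun x => Nl (XG P κ a (cutG K F m) x) δ x)
        ≤ Λ * a / (K * L) * (C / δ ^ 2 * O + C * Λ ^ 3 * L / (K * a)) :=
          mul_le_mul h1 h2 hn1 (by positivity)
      _ = C * Λ * q * O / (c ^ 2 * K * η) + C * Λ ^ 4 / K ^ 2 := by
          rw [← haLq, hδ]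
          field_simp
      _ ≤ C * Λ * q * ω / (c ^ 2 * K * η) + C * Λ ^ 4 / K ^ 2 := by
          gcongr
      _ ≤ ε ^ 2 := by linarith
  · calc ∫ x in P.Ω, av (fun w => |Ml (XG P κ a (cutG K F m) x) δ x w - F x w|)
        ≤ C * O + Λ * 4 ^ K * a * L := h3
      _ ≤ C * ω + Λ * (q * a * L) := by
          have : C * O ≤ C * ω := mul_le_mul_of_nonneg_left hO hC.le
          have h4 : Λ * 4 ^ K * a * L = Λ * (q * a * L) := by
            rw [hq]
            ring
          linarith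
      _ ≤ ε := by
          rw [haLq, hηΛ]
          linarith

end Pool.Agent.H75.ERG
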