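import Pool.Agent.H75.ERG.Defs

/-!
# Invariant functions of polygonal billiards: targets of STEP C
-/

namespace Pool.Agent.H75.ERG

open MeasureTheory Set Metric Filter Topology Pool.Agent.H93.BL
open Pool.Agent.H93.EN (av md rf chi gchi Bd Ml Nl Inv Agr sg VV Chart LS Phi)
open Pool.Agent.H93.EG (InvG Sm gN hN nrm)

/-! ## The cutoff profile -/

/-- properties of the cutoff profile -/
def T_PSI : Prop := ∀ K : ℕ, 1 ≤ K → Continuous (psi K) ∧ (∀ v, 0 ≤ psi K v ∧ psi K v ≤ 1) ∧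
  (∀ v ≤ 2, psi K v = 0) ∧ (∀ v, 2 ^ (K + 1) ≤ v → psi K v = 1) ∧ Measurable (DK K) ∧
  (∀ v, 0 ≤ DK K v ∧ DK K v ≤ 4) ∧
  ∀ v v' v₀ : ℝ, |v - v₀| ≤ 1 / 2 → |v' - v₀| ≤ 1 / 2 →
    |psi K v - psi K v'| ≤ DK K v₀ * |v - v'|

/-! ## Mollification -/

/-- derivative in the direction `w` of the mollification of a function which is Lipschitz in the
direction `w` -/
def T_GLN : Prop := ∀ (Φ : ℂ → ℂ → ℝ), Bd Φ → ∀ (δ : ℝ) (x w : ℂ) (M : ℝ), 0 < δ → ‖w‖ = 1 →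
  0 ≤ M → (∀ t : ℝ, |t| < δ → ∀ᵐ y : ℂ, y ∈ ball x δ →
    |Φ (y + (t : ℂ) * w) w - Φ y w| ≤ M * |t|) →
  |(Nl Φ δ x w * (starRingEnd ℂ) w).re| ≤ M

/-- the mollification and its gradient in terms of the oscillation -/
def T_HLN : Prop := ∃ C > (0 : ℝ), ∀ (Φ : ℂ → ℂ → ℝ), Bd Φ → ∀ (δ : ℝ) (x w : ℂ) (c : ℝ), 0 < δ →
  ‖Nl Φ δ x w‖ ≤ C / δ ^ 3 * ∫ y in ball x δ, |Φ y w - c| ∧
  |Ml Φ δ x w - c| ≤ C / δ ^ 2 * ∫ y in ball x δ, |Φ y w - c|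

/-! ## Local extensions -/

/-- invariance of the extension -/
def T_LIG : Prop := ∀ (ι : Type) (P : Polygon ι) (F : ℂ → ℂ → ℝ), InvG P F → ∀ (x : ℂ) (R : ℝ)
  (τ : Option ι), Chart P x R τ → Inv (Phi P F τ) x R

/-- the extensions are bounded and measurable -/
def T_BDG : Prop := ∀ (ι : Type) (P : Polygon ι) (G : ℂ → ℂ → ℝ),
  Measurable (Function.uncurry G) → (∀ y w, 0 ≤ G y w ∧ G y w ≤ 1) →
  (∀ y w, y ∉ P.Ω → G y w = 0) → ∀ τ : Option ι, Bd (Phi P G τ)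

/-- the system near interior points -/
def T_XIN : Prop := ∀ (ι : Type) (P : Polygon ι) (κ : ℝ), LS P κ → ∀ a δ : ℝ, 0 < a → 0 < δ →
  16 * δ ≤ κ * a → ∀ G : ℂ → ℂ → ℝ, Van P a G → (∀ x, Bd (XG P κ a G x)) ∧
  ∀ x₀ ∈ P.Ω, ∃ s > (0 : ℝ), ∀ x ∈ ball x₀ s, x ∈ P.Ω ∧
    Agr (XG P κ a G x) (XG P κ a G x₀) x₀ (2 * δ)

/-- the system near the sides -/
def T_XSD : Prop := ∀ (ι : Type) [Finite ι] (P : Polygon ι) (κ : ℝ), LS P κ → ∀ a δ : ℝ, 0 < a → 0 < δ →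
  16 * δ ≤ κ * a → ∀ G : ℂ → ℂ → ℝ, Van P a G →
  ∀ j, ∀ x₀ ∈ openSegment ℝ (P.p j) (P.q j), ∃ s > (0 : ℝ), ∃ Φ : ℂ → ℂ → ℝ, Bd Φ ∧
    (∀ᵐ y : ℂ, y ∈ ball x₀ (2 * δ) → ∀ w, Φ (P.aff j y) (P.refl j w) = Φ y w) ∧
    ∀ x ∈ ball x₀ s, 0 < sg P j x → x ∈ P.Ω ∧ Agr (XG P κ a G x) Φ x₀ (2 * δ)

/-- measurability of the mollified system -/
def T_XMS : Prop := ∀ (ι : Type) (P : Polygon ι) (κ : ℝ), LS P κ → ∀ a δ : ℝ, 0 < a → 0 < δ →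
  16 * δ ≤ κ * a → ∀ G : ℂ → ℂ → ℝ, Van P a G →
  Measurable (Function.uncurry fun x => Ml (XG P κ a G x) δ x) ∧
  Measurable (Function.uncurry fun x => Nl (XG P κ a G x) δ x)

/-- the mollified system -/
def T_XSM : Prop := ∀ (ι : Type) [Finite ι] (P : Polygon ι) (κ : ℝ), LS P κ → ∀ a δ : ℝ, 0 < a → 0 < δ →
  16 * δ ≤ κ * a → ∀ G : ℂ → ℂ → ℝ, Van P a G →
  Sm P δ (fun x => Ml (XG P κ a G x) δ x) (fun x => Nl (XG P κ a G x) δ x)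

/-! ## Oscillation -/

/-- the oscillation is measurable -/
def T_OMM : Prop := ∀ (ι : Type) (P : Polygon ι) (F : ℂ → ℂ → ℝ), InvG P F → ∀ δ > (0 : ℝ),
  Measurable (Function.uncurry (om P F δ)) ∧ ∀ x w, 0 ≤ om P F δ x w ∧ om P F δ x w ≤ 4

/-- the oscillation of the extension -/
def T_OMC : Prop := ∀ (ι : Type) (P : Polygon ι) (F : ℂ → ℂ → ℝ), InvG P F → ∀ x ∈ P.Ω,
  ∀ (R : ℝ) (τ : Option ι), Chart P x R τ → ∀ δ : ℝ, 0 < δ → δ ≤ R → ∀ w : ℂ,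
    (δ ^ 2)⁻¹ * ∫ y in ball x δ, |Phi P F τ y w - F x w| ≤ om P F δ x w

/-- the oscillation tends to zero in the mean -/
def T_OML : Prop := ∀ (ι : Type) (P : Polygon ι) (F : ℂ → ℂ → ℝ), InvG P F → ∀ ε > (0 : ℝ),
  ∃ δ₀ > (0 : ℝ), ∀ δ ∈ Ioo 0 δ₀, ∫ x in P.Ω, av (om P F δ x) ≤ ε

/-! ## The estimates -/

/-- the cost function near a point -/
def T_NB : Prop := ∀ (ι : Type) (P : Polygon ι) (κ Λ a L δ : ℝ) (K : ℕ) (F m : ℂ → ℂ → ℝ),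
  Adm P κ Λ a L δ K F m → ∀ x ∈ P.Ω, a < infDist x (VV P) → ∀ τ : Option ι,
  Chart P x (κ * infDist x (VV P)) τ → ∀ w : ℂ, ‖w‖ = 1 →
  (∀ᵐ y : ℂ, y ∈ ball x (2 * δ) → |Phi P m τ y w - m x w| ≤ Λ * ‖y - x‖ / a ∧
    |Phi P m τ y w - m x w| ≤ 1 / 4) ∧
  (∀ y : ℂ, Phi P (cutG K F m) τ y w = Phi P F τ y w * psi K (Phi P m τ y w)) ∧
  ∀ t : ℝ, |t| < δ → ∀ᵐ y : ℂ, y ∈ ball x δ →
    |Phi P m τ (y + (t : ℂ) * w) w - Phi P m τ y w| ≤ |t| / L ∧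
    Phi P F τ (y + (t : ℂ) * w) w = Phi P F τ y w

/-- derivative along the direction -/
def T_GB : Prop := ∀ (ι : Type) (P : Polygon ι) (κ Λ a L δ : ℝ) (K : ℕ) (F m : ℂ → ℂ → ℝ),
  Adm P κ Λ a L δ K F m → ∀ x ∈ P.Ω, ∀ w : ℂ, ‖w‖ = 1 →
    |(Nl (XG P κ a (cutG K F m) x) δ x w * (starRingEnd ℂ) w).re| ≤ DK K (m x w) / L

/-- the whole gradient -/
def T_HB : Prop := ∃ C > (0 : ℝ), ∀ (ι : Type) (P : Polygon ι) (κ Λ a L δ : ℝ) (K : ℕ)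
  (F m : ℂ → ℂ → ℝ), Adm P κ Λ a L δ K F m → ∀ x ∈ P.Ω, ∀ w : ℂ, ‖w‖ = 1 →
    ‖Nl (XG P κ a (cutG K F m) x) δ x w‖ ≤
      C / δ * om P F δ x w + C * Λ / a * DK K (m x w)

open Classical in
/-- distance to `F` -/
def T_AF : Prop := ∃ C > (0 : ℝ), ∀ (ι : Type) (P : Polygon ι) (κ Λ a L δ : ℝ) (K : ℕ)
  (F m : ℂ → ℂ → ℝ), Adm P κ Λ a L δ K F m → ∀ x ∈ P.Ω, ∀ w : ℂ, ‖w‖ = 1 →
    |Ml (XG P κ a (cutG K F m) x) δ x w - F x w| ≤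
      C * om P F δ x w + if m x w < 2 ^ (K + 2) then 1 else 0

/-- integrated estimates -/
def T_IE : Prop := ∃ C > (0 : ℝ), ∀ (ι : Type) (P : Polygon ι) (κ Λ a L δ : ℝ) (K : ℕ)
  (F m : ℂ → ℂ → ℝ), Adm P κ Λ a L δ K F m →
    nrm P.Ω (gN fun x => Nl (XG P κ a (cutG K F m) x) δ x) ≤ Λ * a / (K * L) ∧
    nrm P.Ω (hN fun x => Nl (XG P κ a (cutG K F m) x) δ x) ≤
      C / δ ^ 2 * (∫ x in P.Ω, av (om P F δ x)) + C * Λ ^ 3 * L / (K * a) ∧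
    ∫ x in P.Ω, av (fun w => |Ml (XG P κ a (cutG K F m) x) δ x w - F x w|) ≤
      C * (∫ x in P.Ω, av (om P F δ x)) + Λ * 4 ^ K * a * L

/-! ## Interface to STEP B -/

/-- existence of cost functions -/
def T_STB : Prop := ∀ (ι : Type) [Finite ι] (P : Polygon ι) (κ : ℝ), LS P κ →
  ∃ Λ > (0 : ℝ), ∀ a L : ℝ, 0 < a → a ≤ 1 → a ≤ L → ∃ m, CostF P κ Λ a L m

end Pool.Agent.H75.ERG
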